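import Pool.Agent.Helper76.TB.Goals

/-!
# Project TB, packet TAIL: factorial moments of the number of chosen elements in a window
-/

set_option autoImplicit false

open Finset Filter Topology MeasureTheory ProbabilityTheory

namespace Pool.Agent.Helper45.TB

open Pool.Agent.Helper90.Twin
open Pool.Agent.Helper76.TB

theorem Ps_sub {Y Z : ℕ} (h : Y ≤ Z) : Ps Y ⊆ Ps Z := by
  intro p hp
  rw [mem_Ps] at hp ⊢
  exact ⟨hp.1, hp.2.1.trans h, hp.2.2⟩

theorem TL_eq (Z H k : ℕ) : TL Z H k = ∑ J ∈ (Icc 1 H).powersetCard k, avgI (Ps Z) yy J := by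
  unfold TL avgI
  rw [sum_comm, sum_div]
  rfl

theorem local_le {p k H : ℕ} (hs : SieveSys {p} yy) (hp : p.Prime) (h5 : 5 ≤ p) (hH : 3 * H + 1 < p)
    (J : Finset ℕ) (hJ : ∀ i ∈ J, i ≤ H) (hk : J.card = k) :
    0 ≤ (∑ x ∈ range p, ∏ i ∈ J, (1 - yy p (x + i))) / (p : ℝ) ∧
    (∑ x ∈ range p, ∏ i ∈ J, (1 - yy p (x + i))) / (p : ℝ) ≤ (1 - 2 / (p : ℝ)) ^ k := by
  have hmem : p ∈ ({p} : Finset ℕ) := mem_singleton_self p
  have hp0 : (0 : ℝ) < p := by exact_mod_cast hp.pos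
  constructor
  · apply div_nonneg _ hp0.le
    refine sum_nonneg fun x _ => prod_nonneg fun i _ => ?_
    linarith [hs.y_le_one hmem (x + i)]
  · have h3 : ∑ x ∈ range p, (1 - ∏ i ∈ J, (1 - yy p (x + i))) = 2 * (k : ℝ) := by
      calc ∑ x ∈ range p, (1 - ∏ i ∈ J, (1 - yy p (x + i))) = ∑ x ∈ range p, ∑ i ∈ J, yy p (x + i) := by
            apply Finset.sum_congr rfl
            intro x _
            exact one_sub_prod_eq_sum (fun i _ => hs.zero_one p hmem _)
              (fun i hi j hj hij h1 => separated hp hH h5 x i j (hJ i hi) (hJ j hj) hij h1)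
        _ = ∑ i ∈ J, (2 : ℝ) := by
            rw [Finset.sum_comm]
            apply Finset.sum_congr rfl
            intro i _
            exact hs.shift_sum hmem i
        _ = 2 * (k : ℝ) := by
            rw [Finset.sum_const, nsmul_eq_mul, hk]
            ring
    rw [sum_sub_distrib] at h3
    simp only [sum_const, card_range, nsmul_eq_mul, mul_one] at h3
    have h4 : ∑ x ∈ range p, ∏ i ∈ J, (1 - yy p (x + i)) = p - 2 * (k : ℝ) := by linarith
    have hb := one_add_mul_le_pow (a := -(2 / (p : ℝ))) (by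
      have h5' : (5 : ℝ) ≤ p := by exact_mod_cast h5
      have : 2 / (p : ℝ) ≤ 1 := by rw [div_le_one hp0]; linarith
      linarith) k
    have e1 : 1 + (k : ℝ) * -(2 / (p : ℝ)) = (p - 2 * (k : ℝ)) / p := by
      field_simp
      ring
    have e2 : 1 + -(2 / (p : ℝ)) = 1 - 2 / p := by ring
    rw [h4, ← e1, ← e2]
    exact hb

theorem tail (h1 : BTG) (h2 : INVG) : Pool.Agent.Helper76.TB.TAILG := by
  obtain ⟨C, hC, hev⟩ := h1
  obtain ⟨-, hmul, hbd, -⟩ := h2
  refine ⟨C, hC, ?_⟩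
  filter_upwards [hev] with H hH Z hZ k _
  set Y := 3 * H + 1 with hY
  set D : ℝ := ∏ p ∈ Ps Z \ Ps Y, (1 - 2 / (p : ℝ)) with hD
  have hsub := Ps_sub hZ
  have hD0 : 0 ≤ D := prod_nonneg fun p hp => (factor_pos (mem_sdiff.mp hp).1).le
  have hDG : D * Gz Y = Gz Z := by
    rw [hD]; unfold Gz GG
    exact prod_sdiff hsub
  have hsysZ : SieveSys (Ps Z) yy := sieveSys Z
  have hJ : ∀ J ∈ (Icc 1 H).powersetCard k, avgI (Ps Z) yy J ≤ D ^ k * avgI (Ps Y) yy J := by
    intro J hJ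
    rw [mem_powersetCard] at hJ
    rw [← hmul Y Z hZ J]
    have hY0 : 0 ≤ avgI (Ps Y) yy J := by
      have := (hbd 0 Y J).1
      have e : Ps Y \ Ps 0 = Ps Y := by
        have : Ps 0 = ∅ := by
          ext p; rw [mem_Ps]; simp; omega
        rw [this, sdiff_empty]
      rwa [e] at this
    refine mul_le_mul_of_nonneg_right ?_ hY0
    have hsys' : SieveSys (Ps Z \ Ps Y) yy := hsysZ.mono sdiff_subset
    unfold avgI
    rw [hsys'.avg_prod J, hD, ← prod_pow]
    have hloc : ∀ p ∈ Ps Z \ Ps Y,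
        0 ≤ (∑ x ∈ range p, ∏ i ∈ J, (1 - yy p (x + i))) / (p : ℝ) ∧
        (∑ x ∈ range p, ∏ i ∈ J, (1 - yy p (x + i))) / (p : ℝ) ≤ (1 - 2 / (p : ℝ)) ^ k := by
      intro p hp
      have hp' := mem_sdiff.mp hp
      have hpZ := mem_Ps.mp hp'.1
      have hpY : 3 * H + 1 < p := by
        by_contra hcon
        exact hp'.2 (mem_Ps.mpr ⟨hpZ.1, by omega, hpZ.2.2⟩)
      refine local_le (hsysZ.mono (singleton_subset_iff.mpr hp'.1)) hpZ.2.2 hpZ.1 hpY J ?_ hJ.2
      intro i hi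
      exact (mem_Icc.mp (hJ.1 hi)).2
    exact prod_le_prod (fun p hp => (hloc p hp).1) (fun p hp => (hloc p hp).2)
  have hTLY : TL Y H k ≤ (C * (H * Gz Y)) ^ k / (k.factorial : ℝ) := by
    unfold TL
    have hpos : (0 : ℝ) < ((∏ p ∈ Ps Y, p : ℕ) : ℝ) := by
      have : 0 < ∏ p ∈ Ps Y, p := prod_pos fun p hp => (mem_Ps.mp hp).2.2.pos
      exact_mod_cast this
    rw [div_le_iff₀ hpos]
    have hsysY : SieveSys (Ps Y) yy := sieveSys Y
    have hX0 : ∀ t, 0 ≤ Xz Y t := fun t => hsysY.XX_nonneg t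
    calc ∑ u ∈ range (∏ p ∈ Ps Y, p), ∑ J ∈ (Icc 1 H).powersetCard k, ∏ i ∈ J, Xz Y (u + i)
        ≤ ∑ u ∈ range (∏ p ∈ Ps Y, p), (C * (H * Gz Y)) ^ k / (k.factorial : ℝ) := by
          refine sum_le_sum fun u _ => ?_
          have h3 := EE_le (s := Icc 1 H) (a := fun i => Xz Y (u + i)) (fun i _ => hX0 _) k
          unfold EE at h3
          refine h3.trans ?_
          refine div_le_div_of_nonneg_right ?_ (by positivity)
          exact pow_le_pow_left₀ (sum_nonneg fun i _ => hX0 _) (hH u) k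
      _ = (C * (H * Gz Y)) ^ k / (k.factorial : ℝ) * ((∏ p ∈ Ps Y, p : ℕ) : ℝ) := by
          rw [sum_const, card_range, nsmul_eq_mul, mul_comm]
  calc TL Z H k = ∑ J ∈ (Icc 1 H).powersetCard k, avgI (Ps Z) yy J := TL_eq Z H k
    _ ≤ ∑ J ∈ (Icc 1 H).powersetCard k, D ^ k * avgI (Ps Y) yy J := sum_le_sum hJ
    _ = D ^ k * TL Y H k := by rw [TL_eq, mul_sum]
    _ ≤ D ^ k * ((C * (H * Gz Y)) ^ k / (k.factorial : ℝ)) :=
        mul_le_mul_of_nonneg_left hTLY (pow_nonneg hD0 k)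
    _ = (C * (H * Gz Z)) ^ k / (k.factorial : ℝ) := by
        rw [← hDG, ← mul_div_assoc, ← mul_pow]
        congr 2
        ring

end Pool.Agent.Helper45.TB
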